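import Pool.Agent.H.MP_85a811_lc.C

namespace Pool.Agent.Results.MP_85a811_lc.Full
open Pool.Agent.Lib.CX Pool.Agent.H.MP_85a811_lc

set_option synthInstance.maxSize 2000 in
theorem result : NPHard fun a : {a : Gr × List ℤ // (∀ v, ¬ a.1.arc v v) ∧ a.2.length = a.1.n} =>
    Terminating a.1.1.arc fun v => a.1.2.getD v 0 := by
  let f : List (T3 ℕ) → Gr × List ℤ := fun φ =>
    (mkGr (sV (vs φ.length) (out φ)) (sE (vs φ.length) (out φ)),
      (sV (vs φ.length) (out φ)).dedup.map (sX (xx φ.length)))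
  have h1 : PT fun p : List (T3 ℕ) × ℕ × ℕ => out p.1 p.2 := by unfold out cArcs six cl hh; fun_prop
  have h2 : PT fun φ : List (T3 ℕ) => vs φ.length := by unfold vs; fun_prop
  have h3 : PT fun p : List (T3 ℕ) × (ℕ × ℕ) × ℕ => sX (xx p.1.length) p.2 := by unfold sX xx hh; fun_prop
  have h4 : PT fun φ : List (T3 ℕ) => sV (vs φ.length) (out φ) := by unfold sV; fun_prop
  have h5 : PT fun φ : List (T3 ℕ) => sE (vs φ.length) (out φ) := by unfold sE; fun_prop
  have hf : PT f := by fun_prop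
  have hv : ∀ φ, (∀ v, ¬ (f φ).1.arc v v) ∧ (f φ).2.length = (f φ).1.n := fun φ =>
    ⟨fun v => by rw [mkGr_arc]; exact sE_loop _ _ _, by simp [f, mkGr_n]⟩
  refine NPHard.of_one3 (fun φ => ⟨f φ, hv φ⟩) (PT.subtype hf hv) fun φ hφ => ?_
  rw [main φ fun C hC => (hφ C hC).2, ← sub_iff _ _ (closed φ) (xx φ.length) fun v => Int.natCast_nonneg _]
  refine iff_of_eq (congrArg _ (funext fun i => ?_))
  have := i.2.trans_eq (mkGr_n _ _)
  simp [f, mkGrEquiv, this]

end Pool.Agent.Results.MP_85a811_lc.Full
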